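import Pool.Agent.Lib.MP_28303a_al.HIG.H97.Base

/-! # INT: intersections in the base group -/

set_option autoImplicit false

namespace Pool.Agent.NegK.Hig.H97

open SemidirectProduct

variable (m : Mach)

theorem int_aux (N : Subgroup F2) (g : List Sg → FreeGroup (m.S × m.L))
    (hz : ∀ w, zet m (g w) = FreeGroup.of w) (x : m.K)
    (h1 : x ∈ Subgroup.closure (Set.range fun w => (inl (g w) : m.K))) (h2 : x ∈ m.H0 N) :
    x ∈ Subgroup.closure {y : m.K | ∃ w, m.Acc w ∧ y = inl (g w)} := by
  rw [mem_range_lift] at h1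
  obtain ⟨y, hy⟩ := h1
  have e3 : (FreeGroup.lift fun w => (inl (g w) : m.K)) =
      (inl : _ →* m.K).comp (FreeGroup.lift g) := by
    refine FreeGroup.ext_hom _ _ fun w => ?_
    rw [FreeGroup.lift_apply_of, MonoidHom.comp_apply, FreeGroup.lift_apply_of]
  have e4 : (zet m).comp (FreeGroup.lift g) = MonoidHom.id _ := by
    refine FreeGroup.ext_hom _ _ fun w => ?_
    rw [MonoidHom.comp_apply, FreeGroup.lift_apply_of, hz]
    rfl
  rw [H0_eq] at h2
  obtain ⟨z, hz2, hxz⟩ := right_of_mem h2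
  have h3 : FreeGroup.lift g y = z := by
    have h4 := hy
    rw [e3, MonoidHom.comp_apply, hxz] at h4
    exact inl_injective h4
  have h5 : y = zet m z := by
    rw [← h3]
    exact (DFunLike.congr_fun e4 y).symm
  have h6 : y ∈ Subgroup.closure {v : FreeGroup (List Sg) | ∃ w, m.Acc w ∧ v = FreeGroup.of w} := by
    rw [h5]
    have h7 : Subgroup.closure (A0 m N) ≤ (Subgroup.closure
        {v : FreeGroup (List Sg) | ∃ w, m.Acc w ∧ v = FreeGroup.of w}).comap (zet m) := by
      rw [Subgroup.closure_le]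
      rintro v ((⟨c, hc, rfl⟩ | rfl) | ⟨f, _, rfl⟩)
      · show zet m (FreeGroup.of (Sum.inl c.1, c.2)) ∈ Subgroup.closure
          {v : FreeGroup (List Sg) | ∃ w, m.Acc w ∧ v = FreeGroup.of w}
        by_cases hw : ∃ w, ((Sum.inl c.1, c.2) : m.S × m.L) = (Sum.inl m.qin, m.enc w)
        · obtain ⟨w, hw⟩ := hw
          rw [hw]
          have h8 := zet_tf m w
          unfold tf Mach.fq at h8
          rw [h8]
          apply Subgroup.subset_closure
          refine ⟨w, ?_, rfl⟩
          rw [Prod.mk.injEq, Sum.inl.injEq] at hw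
          show (m.qin, m.enc w) ∈ m.Z
          rw [← hw.1, ← hw.2]
          exact hc
        · rw [zet_of_not m _ fun w h => hw ⟨w, h⟩]
          exact one_mem _
      · show zet m (FreeGroup.of (Sum.inr (Sum.inl ()), 0)) ∈ Subgroup.closure
          {v : FreeGroup (List Sg) | ∃ w, m.Acc w ∧ v = FreeGroup.of w}
        rw [zet_inr]
        exact one_mem _
      · show zet m (m.fc f) ∈ Subgroup.closure
          {v : FreeGroup (List Sg) | ∃ w, m.Acc w ∧ v = FreeGroup.of w}
        rw [zet_fc]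
        exact one_mem _
    exact h7 hz2
  have h9 : Subgroup.closure {v : FreeGroup (List Sg) | ∃ w, m.Acc w ∧ v = FreeGroup.of w} ≤
      (Subgroup.closure {y : m.K | ∃ w, m.Acc w ∧ y = inl (g w)}).comap
        (FreeGroup.lift fun w => (inl (g w) : m.K)) := by
    rw [Subgroup.closure_le]
    rintro v ⟨w, hw, rfl⟩
    show FreeGroup.lift (fun w => (inl (g w) : m.K)) (FreeGroup.of w) ∈ Subgroup.closure
      {y : m.K | ∃ w, m.Acc w ∧ y = inl (g w)}
    rw [FreeGroup.lift_apply_of]
    exact Subgroup.subset_closure ⟨w, hw, rfl⟩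
  rw [← hy]
  exact h9 h6

open Classical in
/-- The retraction onto `F2`. -/
noncomputable def ret : FreeGroup (m.S × m.L) →* F2 :=
  FreeGroup.lift fun p =>
    match p.1 with
    | .inr (.inr j) => FreeGroup.of j
    | _ => 1

theorem ret_fc (f : F2) : ret m (m.fc f) = f := by
  have h : (ret m).comp m.fc = MonoidHom.id _ := by
    refine FreeGroup.ext_hom _ _ fun j => ?_
    rw [MonoidHom.comp_apply]
    unfold Mach.fc ret
    rw [FreeGroup.map.of, FreeGroup.lift_apply_of]
    rfl
  exact DFunLike.congr_fun h f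

theorem tw_mem (N : Subgroup F2) (w : List Sg) (hw : m.Acc w) : m.tw w ∈ m.H0 N :=
  Subgroup.subset_closure (Or.inl (Or.inl ⟨(m.qin, m.enc w), hw, rfl⟩))

theorem vw_mem (N : Subgroup F2) (hN : ∀ w, m.Acc w ↔ ev w ∈ N) (w : List Sg) (hw : m.Acc w) :
    m.vw w ∈ m.H0 N := by
  unfold Mach.vw
  refine mul_mem (mul_mem (tw_mem m N w hw) ?_) ?_
  · exact Subgroup.subset_closure (Or.inr ⟨ev w, (hN w).1 hw, rfl⟩)
  · exact Subgroup.subset_closure (Or.inl (Or.inr rfl))

theorem int : IntStatement := by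
  intro m N hN
  have hv : m.vw = fun w => inl (vf m w) := funext (vw_eq m)
  refine ⟨?_, ?_, ?_, ?_, ?_⟩
  · rintro x ⟨h1, h2⟩
    exact int_aux m N (tf m) (zet_tf m) x h1 h2
  · rintro x ⟨h1, h2⟩
    have h3 : x ∈ Subgroup.closure (Set.range m.vw) := h1
    rw [hv] at h3
    have h4 := int_aux m N (vf m) (zet_vf m) x h3 h2
    unfold Mach.VE
    rw [hv]
    exact h4
  · unfold Mach.TE
    rw [Subgroup.closure_le]
    rintro _ ⟨w, hw, rfl⟩
    exact tw_mem m N w hw
  · unfold Mach.VE
    rw [Subgroup.closure_le]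
    rintro _ ⟨w, hw, rfl⟩
    exact vw_mem m N hN w hw
  · apply le_antisymm
    · intro f hf
      have h1 : (inl (m.fc f) : m.K) ∈ m.H0 N := hf
      rw [H0_eq, inl_mem] at h1
      have h2 : Subgroup.closure (A0 m N) ≤ N.comap (ret m) := by
        rw [Subgroup.closure_le]
        rintro v ((⟨c, hc, rfl⟩ | rfl) | ⟨f, hf, rfl⟩)
        · show ret m (FreeGroup.of (Sum.inl c.1, c.2)) ∈ N
          unfold ret
          rw [FreeGroup.lift_apply_of]
          exact one_mem _
        · show ret m (FreeGroup.of (Sum.inr (Sum.inl ()), 0)) ∈ N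
          unfold ret
          rw [FreeGroup.lift_apply_of]
          exact one_mem _
        · show ret m (m.fc f) ∈ N
          rw [ret_fc]
          exact hf
      have h3 : ret m (m.fc f) ∈ N := h2 h1
      rwa [ret_fc] at h3
    · intro f hf
      exact Subgroup.subset_closure (Or.inr ⟨f, hf, rfl⟩)

end Pool.Agent.NegK.Hig.H97
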