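import Pool.Agent.Lib.MP_28303a_al.HIG.H97.Base

/-! # RCOMP: compatibility with the machine letters -/

set_option autoImplicit false

namespace Pool.Agent.NegK.Hig.H97

open SemidirectProduct

variable (m : Mach)

open Classical in
/-- The retraction onto the free group generated by `t_q (b + M u)`. -/
noncomputable def rho (q : m.Q) (b : m.L) (M : m.L →+ m.L) :
    FreeGroup (m.S × m.L) →* FreeGroup (Unit × m.L) :=
  FreeGroup.lift fun p =>
    if h : ∃ u, p = (.inl q, b + M u) then FreeGroup.of ((), h.choose) else 1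

theorem rho_of (q : m.Q) (b : m.L) (M : m.L →+ m.L) (hM : Function.Injective M) (u : m.L) :
    rho m q b M (FreeGroup.of (Sum.inl q, b + M u)) = FreeGroup.of ((), u) := by
  have h : ∃ u', ((.inl q, b + M u) : m.S × m.L) = (.inl q, b + M u') := ⟨u, rfl⟩
  unfold rho
  rw [FreeGroup.lift_apply_of, dif_pos h]
  have h1 := h.choose_spec
  rw [Prod.mk.injEq] at h1
  rw [← hM (add_left_cancel h1.2)]

theorem rho_of_not (q : m.Q) (b : m.L) (M : m.L →+ m.L) (p : m.S × m.L)
    (h : ∀ u, p ≠ (.inl q, b + M u)) : rho m q b M (FreeGroup.of p) = 1 := by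
  unfold rho
  rw [FreeGroup.lift_apply_of, dif_neg (by
    rintro ⟨w, hw⟩
    exact h w hw)]

theorem rho_fc (q : m.Q) (b : m.L) (M : m.L →+ m.L) (f : F2) : rho m q b M (m.fc f) = 1 := by
  have h : (rho m q b M).comp m.fc = 1 := by
    refine FreeGroup.ext_hom _ _ fun j => ?_
    rw [MonoidHom.comp_apply]
    unfold Mach.fc
    rw [FreeGroup.map.of]
    rw [rho_of_not]
    · rfl
    · intro u hu
      rw [Prod.mk.injEq] at hu
      exact absurd hu.1 (by simp)
  exact DFunLike.congr_fun h f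

/-- The configurations `u` for which `t_q (b + M u)` lies in `H0`. -/
def RS (q : m.Q) (b : m.L) (M : m.L →+ m.L) : Set (FreeGroup (Unit × m.L)) :=
  {x | ∃ u, (q, b + M u) ∈ m.Z ∧ x = FreeGroup.of ((), u)}

theorem rc_aux (N : Subgroup F2) (M : m.L →+ m.L) (hM : Function.Injective M) (q : m.Q) (b : m.L)
    (c : Bas Unit m.L) :
    Bas.hom M (fun _ => m.fq q b) c ∈ m.H0 N ↔
      c.right = 1 ∧ c.left ∈ Subgroup.closure (RS m q b M) := by
  have hf : ∀ u : m.L, fr M (fun _ : Unit => m.fq q b) (FreeGroup.of ((), u)) =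
      FreeGroup.of (Sum.inl q, b + M u) := by
    intro u
    rw [fr_of]
    show shift m.S m.L (Multiplicative.ofAdd (M u)) (FreeGroup.of (Sum.inl q, b)) = _
    rw [shift_of]
    rfl
  rw [H0_eq]
  constructor
  · intro h
    have hc : c = inl c.left := eq_inl_of_hom hM _ c h
    have hr : c.right = 1 := by rw [hc, right_inl]
    refine ⟨hr, ?_⟩
    rw [hc, hom_inl, inl_mem] at h
    have h1 : ((rho m q b M).comp (fr M (fun _ : Unit => m.fq q b))) = MonoidHom.id _ := by
      refine FreeGroup.ext_hom _ _ fun p => ?_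
      obtain ⟨s, u⟩ := p
      rw [MonoidHom.comp_apply, hf, rho_of m q b M hM]
      rfl
    have h2 : Subgroup.closure (A0 m N) ≤
        (Subgroup.closure (RS m q b M)).comap (rho m q b M) := by
      rw [Subgroup.closure_le]
      rintro v ((⟨c', hc', rfl⟩ | rfl) | ⟨f, _, rfl⟩)
      · show rho m q b M (FreeGroup.of (Sum.inl c'.1, c'.2)) ∈ Subgroup.closure (RS m q b M)
        by_cases hw : ∃ u, ((Sum.inl c'.1, c'.2) : m.S × m.L) = (Sum.inl q, b + M u)
        · obtain ⟨u, hu⟩ := hw
          rw [hu, rho_of m q b M hM]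
          apply Subgroup.subset_closure
          refine ⟨u, ?_, rfl⟩
          rw [Prod.mk.injEq, Sum.inl.injEq] at hu
          rw [← hu.1, ← hu.2]
          exact hc'
        · rw [rho_of_not m q b M _ fun w h => hw ⟨w, h⟩]
          exact one_mem _
      · show rho m q b M (FreeGroup.of (Sum.inr (Sum.inl ()), 0)) ∈ Subgroup.closure (RS m q b M)
        rw [rho_of_not]
        · exact one_mem _
        · intro u hu
          rw [Prod.mk.injEq] at hu
          exact absurd hu.1 (by simp)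
      · show rho m q b M (m.fc f) ∈ Subgroup.closure (RS m q b M)
        rw [rho_fc]
        exact one_mem _
    have h3 : rho m q b M (fr M (fun _ : Unit => m.fq q b) c.left) ∈
        Subgroup.closure (RS m q b M) := h2 h
    have h4 := DFunLike.congr_fun h1 c.left
    rw [MonoidHom.comp_apply] at h4
    rw [h4] at h3
    exact h3
  · rintro ⟨h1, h2⟩
    rw [eq_inl_of_right h1, hom_inl, inl_mem]
    have h3 : Subgroup.closure (RS m q b M) ≤
        (Subgroup.closure (A0 m N)).comap (fr M (fun _ : Unit => m.fq q b)) := by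
      rw [Subgroup.closure_le]
      rintro v ⟨u, hu, rfl⟩
      show fr M (fun _ : Unit => m.fq q b) (FreeGroup.of ((), u)) ∈ Subgroup.closure (A0 m N)
      rw [hf]
      exact Subgroup.subset_closure (Or.inl (Or.inl ⟨_, hu, rfl⟩))
    exact h3 h2

theorem mul5_inj (J : Type) : Function.Injective (mul5 J) := by
  intro a b h
  funext j
  have h1 : 5 * a j = 5 * b j := congrFun h j
  omega

theorem mulv_inj {J : Type} (a : J → ℕ) (ha : ∀ j, 0 < a j) : Function.Injective (mulv a) := by
  intro x y h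
  funext j
  have h1 : (a j : ℤ) * x j = a j * y j := congrFun h j
  have h2 : (a j : ℤ) ≠ 0 := by
    have := ha j
    omega
  exact mul_left_cancel₀ h2 h1

theorem rcomp (hZ : ZclStatement) : RcompStatement := by
  intro m h N i c'
  obtain ⟨c, rfl⟩ : ∃ c : Bas Unit m.L, c = c' := ⟨c', rfl⟩
  show Bas.hom (mul5 m.J) (fun _ => m.fq i.1 fun j => ((i.2 j).val : ℤ)) c ∈ m.H0 N ↔
    Bas.hom (mulv (m.al i.1 i.2))
      (fun _ => m.fq (m.nxt i.1 i.2) fun j => (m.be i.1 i.2 j : ℤ)) c ∈ m.H0 N
  rw [rc_aux m N _ (mul5_inj _), rc_aux m N _ (mulv_inj _ (m.al_pos _ _))]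
  have h1 : RS m i.1 (fun j => ((i.2 j).val : ℤ)) (mul5 m.J) =
      RS m (m.nxt i.1 i.2) (fun j => (m.be i.1 i.2 j : ℤ)) (mulv (m.al i.1 i.2)) := by
    have h2 : ∀ u : m.L, m.step (i.1, (fun j => ((i.2 j).val : ℤ)) + mul5 m.J u) =
        (m.nxt i.1 i.2, (fun j => (m.be i.1 i.2 j : ℤ)) + mulv (m.al i.1 i.2) u) := by
      intro u
      have h3 : m.res ((fun j => ((i.2 j).val : ℤ)) + mul5 m.J u) = i.2 := by
        funext j
        show (((((i.2 j).val : ℕ) : ℤ) + 5 * u j : ℤ) : ZMod 5) = i.2 j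
        push_cast
        rw [ZMod.natCast_zmod_val]
        have h5 : (5 : ZMod 5) = 0 := rfl
        rw [h5, zero_mul, add_zero]
      unfold Mach.step
      simp only [h3]
      refine Prod.ext rfl ?_
      funext j
      show (m.al i.1 i.2 j : ℤ) * (((((i.2 j).val : ℕ) : ℤ) + 5 * u j) / 5) + m.be i.1 i.2 j =
        (m.be i.1 i.2 j : ℤ) + m.al i.1 i.2 j * u j
      have h6 : (i.2 j).val < 5 := ZMod.val_lt (i.2 j)
      have h7 : ((((i.2 j).val : ℕ) : ℤ) + 5 * u j) / 5 = u j := by omega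
      rw [h7, add_comm]
    unfold RS
    ext x
    constructor
    · rintro ⟨u, hu, rfl⟩
      refine ⟨u, ?_, rfl⟩
      rw [← h2]
      exact (hZ m _).1 hu
    · rintro ⟨u, hu, rfl⟩
      refine ⟨u, ?_, rfl⟩
      rw [← h2] at hu
      exact (hZ m _).2 hu
  rw [h1]

end Pool.Agent.NegK.Hig.H97
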