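import Pool.Agent.Lib.MP_28303a_al.HIG.Iface

/-! # Tools for subgroups of the base group -/

set_option autoImplicit false

namespace Pool.Agent.NegK.Hig.H97

open SemidirectProduct

theorem hom_mem {X G : Type} [Group G] (f : FreeGroup X →* G) (H : Subgroup G)
    (h : ∀ x, f (FreeGroup.of x) ∈ H) (w : FreeGroup X) : f w ∈ H := by
  have h1 : f = FreeGroup.lift fun x => f (FreeGroup.of x) :=
    FreeGroup.ext_hom _ _ fun x => by rw [FreeGroup.lift_apply_of]
  have h2 : (FreeGroup.lift fun x => f (FreeGroup.of x)).range ≤ H := by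
    refine FreeGroup.range_lift_le ?_
    rintro _ ⟨x, rfl⟩
    exact h x
  rw [h1]
  exact h2 ⟨w, rfl⟩

theorem mem_range_lift {X G : Type} [Group G] (g : X → G) (z : G) :
    z ∈ Subgroup.closure (Set.range g) ↔ ∃ y, FreeGroup.lift g y = z := by
  rw [← FreeGroup.range_lift_eq_closure]
  exact Iff.rfl

section

variable {S L S' M : Type} [AddCommGroup L] [AddCommGroup M]

/-- The restriction of `Bas.hom` to the free groups. -/
def fr (m : M →+ L) (c : S' → FreeGroup (S × L)) : FreeGroup (S' × M) →* FreeGroup (S × L) :=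
  FreeGroup.lift fun p : S' × M => shift S L (Multiplicative.ofAdd (m p.2)) (c p.1)

theorem fr_of (m : M →+ L) (c : S' → FreeGroup (S × L)) (s : S') (u : M) :
    fr m c (FreeGroup.of (s, u)) = shift S L (Multiplicative.ofAdd (m u)) (c s) := by
  unfold fr
  rw [FreeGroup.lift_apply_of]

theorem hom_inl (m : M →+ L) (c : S' → FreeGroup (S × L)) (x : FreeGroup (S' × M)) :
    Bas.hom m c (inl x) = inl (fr m c x) := by
  unfold Bas.hom fr
  rw [SemidirectProduct.map_inl]

theorem hom_right (m : M →+ L) (c : S' → FreeGroup (S × L)) (x : Bas S' M) :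
    (Bas.hom m c x).right = Multiplicative.ofAdd (m x.right.toAdd) := by
  unfold Bas.hom
  rw [SemidirectProduct.map_right]
  rfl

theorem eq_inl_of_right {x : Bas S L} (h : x.right = 1) : x = inl x.left := by
  refine SemidirectProduct.ext ?_ ?_
  · rw [left_inl]
  · rw [right_inl, h]

theorem right_of_mem {A : Set (FreeGroup (S × L))} {x : Bas S L}
    (h : x ∈ Subgroup.closure ((inl : _ →* Bas S L) '' A)) :
    ∃ y ∈ Subgroup.closure A, x = inl y := by
  rw [← MonoidHom.map_closure] at h
  obtain ⟨y, hy, hxy⟩ := h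
  exact ⟨y, hy, hxy.symm⟩

theorem inl_mem {A : Set (FreeGroup (S × L))} {y : FreeGroup (S × L)} :
    (inl y : Bas S L) ∈ Subgroup.closure ((inl : _ →* Bas S L) '' A) ↔
      y ∈ Subgroup.closure A := by
  constructor
  · intro h
    obtain ⟨z, hz, h1⟩ := right_of_mem h
    rwa [inl_injective h1]
  · intro h
    rw [← MonoidHom.map_closure]
    exact ⟨y, h, rfl⟩

/-- An element whose image has trivial right part lies in the free part. -/
theorem eq_inl_of_hom {m : M →+ L} (hm : Function.Injective m) (c : S' → FreeGroup (S × L))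
    (x : Bas S' M) {A : Set (FreeGroup (S × L))}
    (h : Bas.hom m c x ∈ Subgroup.closure ((inl : _ →* Bas S L) '' A)) : x = inl x.left := by
  apply eq_inl_of_right
  obtain ⟨y, _, hy⟩ := right_of_mem h
  have h1 := congrArg SemidirectProduct.right hy
  rw [hom_right, right_inl] at h1
  have h2 : m x.right.toAdd = 0 := h1
  have h3 : x.right.toAdd = 0 := hm (by rw [h2, map_zero])
  exact h3

end

/-! ### Machines -/

variable (m : Mach)

theorem enc_inj : Function.Injective m.enc := by
  intro w
  induction w using List.reverseRecOn with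
  | nil =>
    intro w' h
    rcases List.eq_nil_or_concat w' with rfl | ⟨v, a, rfl⟩
    · rfl
    · have h1 : m.enc (v ++ [a]) = m.mul (m.enc v) + m.kap a := m.enc_append v a
      rw [List.concat_eq_append] at h
      obtain ⟨u, hu, _⟩ := m.enc_sep [] (m.enc v) a (by rw [h, h1])
      simp at hu
  | append_singleton w a ih =>
    intro w' h
    obtain ⟨u, hu, hu'⟩ := m.enc_sep w' (m.enc w) a (by rw [← h, m.enc_append])
    rw [hu, ih hu']

/-- The set of generators of the free part of `H0`. -/
def A0 (N : Subgroup F2) : Set (FreeGroup (m.S × m.L)) :=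
  {x | ∃ c ∈ m.Z, x = m.fq c.1 c.2} ∪ {m.fd} ∪ m.fc '' (N : Set F2)

theorem H0_eq (N : Subgroup F2) :
    m.H0 N = Subgroup.closure ((inl : _ →* m.K) '' A0 m N) := by
  unfold Mach.H0 A0
  rw [Set.image_union, Set.image_union, Set.image_singleton, Set.image_image]
  congr 3
  ext x
  constructor
  · rintro ⟨c, hc, rfl⟩
    exact ⟨_, ⟨c, hc, rfl⟩, rfl⟩
  · rintro ⟨_, ⟨c, hc, rfl⟩, rfl⟩
    exact ⟨c, hc, rfl⟩

/-- The free part of `t(w)`. -/
def tf (w : List Sg) : FreeGroup (m.S × m.L) := m.fq m.qin (m.enc w)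

/-- The free part of `t(w) w d`. -/
def vf (w : List Sg) : FreeGroup (m.S × m.L) := tf m w * m.fc (ev w) * m.fd

theorem tw_eq (w : List Sg) : m.tw w = inl (tf m w) := rfl

theorem vw_eq (w : List Sg) : m.vw w = inl (vf m w) := by
  unfold Mach.vw vf Mach.ic
  rw [tw_eq, map_mul, map_mul]
  rfl

open Classical in
/-- The retraction onto the free group on the words. -/
noncomputable def zet : FreeGroup (m.S × m.L) →* FreeGroup (List Sg) :=
  FreeGroup.lift fun p =>
    if h : ∃ w, p = (.inl m.qin, m.enc w) then FreeGroup.of h.choose else 1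

theorem zet_tf (w : List Sg) : zet m (tf m w) = FreeGroup.of w := by
  have h : ∃ w', ((.inl m.qin, m.enc w) : m.S × m.L) = (.inl m.qin, m.enc w') := ⟨w, rfl⟩
  unfold zet tf Mach.fq
  rw [FreeGroup.lift_apply_of, dif_pos h]
  have h1 := h.choose_spec
  rw [Prod.mk.injEq] at h1
  rw [← enc_inj m h1.2]

theorem zet_of_not (p : m.S × m.L) (h : ∀ w, p ≠ (.inl m.qin, m.enc w)) :
    zet m (FreeGroup.of p) = 1 := by
  unfold zet
  rw [FreeGroup.lift_apply_of, dif_neg (by
    rintro ⟨w, hw⟩
    exact h w hw)]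

theorem zet_inr (s : Unit ⊕ Fin 2) (n : m.L) : zet m (FreeGroup.of (.inr s, n)) = 1 := by
  apply zet_of_not
  intro w h
  rw [Prod.mk.injEq] at h
  exact absurd h.1 (by simp)

theorem zet_shift_fc (v : m.L) (f : F2) :
    zet m (shift m.S m.L (Multiplicative.ofAdd v) (m.fc f)) = 1 := by
  have h : ((zet m).comp (((shift m.S m.L (Multiplicative.ofAdd v)).toMonoidHom).comp m.fc)) = 1 := by
    refine FreeGroup.ext_hom _ _ fun j => ?_
    show zet m (shift m.S m.L (Multiplicative.ofAdd v) (m.fc (FreeGroup.of j))) = 1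
    unfold Mach.fc
    rw [FreeGroup.map.of, shift_of, zet_inr]
  exact DFunLike.congr_fun h f

theorem zet_fc (f : F2) : zet m (m.fc f) = 1 := by
  have h := zet_shift_fc m 0 f
  rwa [ofAdd_zero, map_one, MulAut.one_apply] at h

theorem zet_vf (w : List Sg) : zet m (vf m w) = FreeGroup.of w := by
  unfold vf Mach.fd
  rw [map_mul, map_mul, zet_tf, zet_fc, zet_inr, mul_one, mul_one]

end Pool.Agent.NegK.Hig.H97
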