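import Pool.Agent.Lib.MP_28303a_al.HIG.H97.Base

/-! # PCOMP: compatibility with the word letters -/

set_option autoImplicit false

namespace Pool.Agent.NegK.Hig.H97

open SemidirectProduct

variable (m : Mach)

theorem pcomp_aux (h : m.Inj) (a : Sg) (g : List Sg → FreeGroup (m.S × m.L))
    (g' : List Sg → FreeGroup (S3 × m.L)) (hz : ∀ w, zet m (g w) = FreeGroup.of w)
    (hα : ∀ w, m.pα (inl (g' w)) = inl (g w)) (hβ : ∀ w, m.pβ a (inl (g' w)) = inl (g (w ++ [a])))
    (c : Bas S3 m.L) :
    m.pα c ∈ Subgroup.closure (Set.range fun w => (inl (g w) : m.K)) ↔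
      m.pβ a c ∈ Subgroup.closure (Set.range fun w => (inl (g w) : m.K)) := by
  have e1 : (FreeGroup.lift fun w => (inl (g w) : m.K)) =
      m.pα.comp (FreeGroup.lift fun w => (inl (g' w) : Bas S3 m.L)) := by
    refine FreeGroup.ext_hom _ _ fun w => ?_
    rw [FreeGroup.lift_apply_of, MonoidHom.comp_apply, FreeGroup.lift_apply_of, hα]
  have e2 : (FreeGroup.lift fun w => (inl (g w) : m.K)).comp
        (FreeGroup.map fun w : List Sg => w ++ [a]) =
      (m.pβ a).comp (FreeGroup.lift fun w => (inl (g' w) : Bas S3 m.L)) := by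
    refine FreeGroup.ext_hom _ _ fun w => ?_
    rw [MonoidHom.comp_apply, FreeGroup.map.of, FreeGroup.lift_apply_of, MonoidHom.comp_apply,
      FreeGroup.lift_apply_of, hβ]
  rw [mem_range_lift, mem_range_lift]
  constructor
  · rintro ⟨y, hy⟩
    rw [e1, MonoidHom.comp_apply] at hy
    have h1 := h.pα hy
    refine ⟨FreeGroup.map (fun w : List Sg => w ++ [a]) y, ?_⟩
    have h2 := DFunLike.congr_fun e2 y
    rw [MonoidHom.comp_apply, MonoidHom.comp_apply, h1] at h2
    exact h2
  · rintro ⟨y, hy⟩
    have e3 : (FreeGroup.lift fun w => (inl (g w) : m.K)) =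
        (inl : _ →* m.K).comp (FreeGroup.lift g) := by
      refine FreeGroup.ext_hom _ _ fun w => ?_
      rw [FreeGroup.lift_apply_of, MonoidHom.comp_apply, FreeGroup.lift_apply_of]
    have hc : c = inl c.left := by
      apply eq_inl_of_hom (A := Set.range g) m.mul_inj _ c
      show m.pβ a c ∈ _
      rw [← Set.range_comp]
      exact (mem_range_lift _ _).2 ⟨y, hy⟩
    have e4 : (zet m).comp (FreeGroup.lift g) = MonoidHom.id _ := by
      refine FreeGroup.ext_hom _ _ fun w => ?_
      rw [MonoidHom.comp_apply, FreeGroup.lift_apply_of, hz]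
      rfl
    have h5 : m.pβ a (inl c.left) = inl (fr m.mul (fun s : S3 =>
        match s with
        | .inl _ => m.fq m.qin (m.kap a)
        | .inr (.inl _) => m.fc (ev [a]) * m.fd
        | .inr (.inr j) => FreeGroup.of (.inr (.inr j), 0)) c.left) := hom_inl _ _ _
    have h6 := hy
    rw [e3, MonoidHom.comp_apply, hc, h5] at h6
    have h7 := inl_injective h6
    have h8 : y = zet m (FreeGroup.lift g y) := (DFunLike.congr_fun e4 y).symm
    rw [h7] at h8
    have h9 : y ∈ (FreeGroup.map fun w : List Sg => w ++ [a]).range := by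
      rw [h8]
      refine hom_mem ((zet m).comp (fr m.mul _)) _ ?_ _
      rintro ⟨s, u⟩
      rw [MonoidHom.comp_apply, fr_of]
      rcases s with s | s | j
      · by_cases hw : ∃ w, m.kap a + m.mul u = m.enc w
        · obtain ⟨w, hw⟩ := hw
          obtain ⟨v, rfl, _⟩ := m.enc_sep w u a (by rw [← hw, add_comm])
          refine ⟨FreeGroup.of v, ?_⟩
          rw [FreeGroup.map.of]
          show _ = zet m (shift m.S m.L (Multiplicative.ofAdd (m.mul u))
            (FreeGroup.of (.inl m.qin, m.kap a)))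
          rw [shift_of]
          show _ = zet m (FreeGroup.of (.inl m.qin, m.kap a + m.mul u))
          rw [hw]
          exact (zet_tf m _).symm
        · have h10 : zet m (shift m.S m.L (Multiplicative.ofAdd (m.mul u))
            (FreeGroup.of (.inl m.qin, m.kap a))) = 1 := by
            rw [shift_of]
            apply zet_of_not
            intro w h11
            rw [Prod.mk.injEq] at h11
            exact hw ⟨w, h11.2⟩
          show zet m (shift m.S m.L (Multiplicative.ofAdd (m.mul u))
            (FreeGroup.of (.inl m.qin, m.kap a))) ∈ _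
          rw [h10]
          exact one_mem _
      · have h10 : zet m (shift m.S m.L (Multiplicative.ofAdd (m.mul u))
            (m.fc (ev [a]) * FreeGroup.of (.inr (.inl ()), 0))) = 1 := by
          rw [map_mul, map_mul, zet_shift_fc, shift_of, zet_inr, mul_one]
        show zet m (shift m.S m.L (Multiplicative.ofAdd (m.mul u))
            (m.fc (ev [a]) * FreeGroup.of (.inr (.inl ()), 0))) ∈ _
        rw [h10]
        exact one_mem _
      · have h10 : zet m (shift m.S m.L (Multiplicative.ofAdd (m.mul u))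
            (FreeGroup.of (.inr (.inr j), 0))) = 1 := by
          rw [shift_of, zet_inr]
        show zet m (shift m.S m.L (Multiplicative.ofAdd (m.mul u))
            (FreeGroup.of (.inr (.inr j), 0))) ∈ _
        rw [h10]
        exact one_mem _
    obtain ⟨y', hy'⟩ := h9
    have h12 := DFunLike.congr_fun e2 y'
    rw [MonoidHom.comp_apply, hy', hy, MonoidHom.comp_apply] at h12
    have h13 := h.pβ a h12
    refine ⟨y', ?_⟩
    rw [e1, MonoidHom.comp_apply, ← h13]

/-- The embedding of `F2` in the source of the word letters. -/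
def fc3 : F2 →* FreeGroup (S3 × m.L) :=
  FreeGroup.map fun j => (Sum.inr (Sum.inr j), 0)

/-- The preimage of `t(w) w d`. -/
def vf3 (w : List Sg) : FreeGroup (S3 × m.L) :=
  FreeGroup.of (Sum.inl (), m.enc w) * fc3 m (ev w) * FreeGroup.of (Sum.inr (Sum.inl ()), 0)

theorem pα_t (u : m.L) : m.pα (inl (FreeGroup.of (Sum.inl (), u))) = inl (m.fq m.qin u) := by
  show Bas.hom _ _ _ = _
  rw [hom_inl, fr_of]
  show inl (shift m.S m.L (Multiplicative.ofAdd u) (FreeGroup.of (Sum.inl m.qin, 0))) = _
  rw [shift_of]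
  show inl (FreeGroup.of (Sum.inl m.qin, 0 + u)) = _
  rw [zero_add]
  rfl

theorem pα_d : m.pα (inl (FreeGroup.of (Sum.inr (Sum.inl ()), 0))) = inl m.fd := by
  show Bas.hom _ _ _ = _
  rw [hom_inl, fr_of]
  show inl (shift m.S m.L (Multiplicative.ofAdd 0)
    (FreeGroup.of (Sum.inr (Sum.inl ()), 0))) = _
  rw [ofAdd_zero, map_one]
  rfl

theorem pα_c (f : F2) : m.pα (inl (fc3 m f)) = m.ic f := by
  have h : m.pα.comp ((inl : _ →* Bas S3 m.L).comp (fc3 m)) = m.ic := by
    refine FreeGroup.ext_hom _ _ fun j => ?_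
    rw [MonoidHom.comp_apply, MonoidHom.comp_apply]
    unfold fc3
    rw [FreeGroup.map.of]
    show Bas.hom _ _ _ = _
    rw [hom_inl, fr_of]
    show inl (shift m.S m.L (Multiplicative.ofAdd 0)
      (FreeGroup.of (Sum.inr (Sum.inr j), 0))) = _
    rw [ofAdd_zero, map_one]
    show inl (FreeGroup.of (Sum.inr (Sum.inr j), 0)) = inl (m.fc (FreeGroup.of j))
    unfold Mach.fc
    rw [FreeGroup.map.of]
  exact DFunLike.congr_fun h f

theorem pβ_t (a : Sg) (u : m.L) :
    m.pβ a (inl (FreeGroup.of (Sum.inl (), u))) = inl (m.fq m.qin (m.mul u + m.kap a)) := by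
  show Bas.hom _ _ _ = _
  rw [hom_inl, fr_of]
  show inl (shift m.S m.L (Multiplicative.ofAdd (m.mul u))
    (FreeGroup.of (Sum.inl m.qin, m.kap a))) = _
  rw [shift_of]
  show inl (FreeGroup.of (Sum.inl m.qin, m.kap a + m.mul u)) = _
  rw [add_comm]
  rfl

theorem pβ_d (a : Sg) : m.pβ a (inl (FreeGroup.of (Sum.inr (Sum.inl ()), 0))) =
    m.ic (ev [a]) * inl m.fd := by
  show Bas.hom _ _ _ = _
  rw [hom_inl, fr_of]
  show inl (shift m.S m.L (Multiplicative.ofAdd (m.mul 0)) (m.fc (ev [a]) * m.fd)) = _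
  rw [map_zero, ofAdd_zero, map_one, MulAut.one_apply, map_mul]
  rfl

theorem pβ_c (a : Sg) (f : F2) : m.pβ a (inl (fc3 m f)) = m.ic f := by
  have h : (m.pβ a).comp ((inl : _ →* Bas S3 m.L).comp (fc3 m)) = m.ic := by
    refine FreeGroup.ext_hom _ _ fun j => ?_
    rw [MonoidHom.comp_apply, MonoidHom.comp_apply]
    unfold fc3
    rw [FreeGroup.map.of]
    show Bas.hom _ _ _ = _
    rw [hom_inl, fr_of]
    show inl (shift m.S m.L (Multiplicative.ofAdd (m.mul 0))
      (FreeGroup.of (Sum.inr (Sum.inr j), 0))) = _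
    rw [map_zero, ofAdd_zero, map_one]
    show inl (FreeGroup.of (Sum.inr (Sum.inr j), 0)) = inl (m.fc (FreeGroup.of j))
    unfold Mach.fc
    rw [FreeGroup.map.of]
  exact DFunLike.congr_fun h f

theorem pcomp : PcompStatement := by
  intro m h
  constructor
  · intro a c
    refine pcomp_aux m h a (tf m) (fun w => FreeGroup.of (Sum.inl (), m.enc w)) (zet_tf m) ?_ ?_ c
    · intro w
      exact pα_t m _
    · intro w
      rw [pβ_t, ← m.enc_append]
      rfl
  · intro a c
    have hv : m.vw = fun w => inl (vf m w) := funext (vw_eq m)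
    show m.pα c ∈ Subgroup.closure (Set.range m.vw) ↔
      m.pβ a c ∈ Subgroup.closure (Set.range m.vw)
    rw [hv]
    refine pcomp_aux m h a (vf m) (vf3 m) (zet_vf m) ?_ ?_ c
    · intro w
      unfold vf3
      rw [map_mul, map_mul, map_mul, map_mul, pα_t, pα_c, pα_d, ← vw_eq]
      rfl
    · intro w
      unfold vf3
      rw [map_mul, map_mul, map_mul, map_mul, pβ_t, pβ_c, pβ_d, ← vw_eq, ← m.enc_append]
      have h1 : ev (w ++ [a]) = ev w * ev [a] := (FreeGroup.mul_mk).symm
      unfold Mach.vw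
      rw [h1, map_mul, mul_assoc, mul_assoc, mul_assoc]
      rfl

end Pool.Agent.NegK.Hig.H97
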